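import Pool.Agent.Y466.RW.Bin
import Pool.Agent.Y466.FT.Abs

/-!
# Functions of finite degree on words: equidistribution
-/

set_option autoImplicit false

namespace Pool.Agent.Y466.RW

open Finset Pool.Agent.Y466.FT

section
variable {L : Type} {A : Type} [AddCommGroup A]

/-- The pairs `(s, 1)`, `s` a letter. -/
def LE (L : Type) : Set (FreeMonoid L × FreeMonoid L) := {e | ∃ s, e = (FreeMonoid.of s, 1)}

theorem const_of_dg {f : FreeMonoid L → A} (h : Dg (LE L) 1 f) (w : FreeMonoid L) : f w = f 1 := by
  induction w using FreeMonoid.recOn with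
  | one => rfl
  | of_mul s w ih =>
    have h1 := h _ ⟨s, rfl⟩ 1 w
    simp only [one_mul] at h1
    rw [← ih, ← sub_eq_zero, h1]

/-- Two words have the same class. -/
theorem cg_word {n : ℕ} {f : FreeMonoid L → A} (h : Dg (LE L) (n + 1) f) (w : FreeMonoid L) :
    cg (LE L) n f w 1 := by
  induction w using FreeMonoid.recOn with
  | one => exact (cg (LE L) n f).refl 1
  | of_mul s w ih =>
    have h1 : cg (LE L) n f (FreeMonoid.of s) 1 := by
      intro a b
      refine ((h _ ⟨s, rfl⟩ a).trans b).congr fun u => ?_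
      simp only [mul_assoc]
    have := (cg (LE L) n f).mul h1 ih
    rwa [one_mul] at this

theorem dg_left {n : ℕ} {f : FreeMonoid L → A} (h : Dg (LE L) (n + 1) f) (y y' : FreeMonoid L) :
    Dg (LE L) n (fun z => f (y * z) - f (y' * z)) := by
  have h1 := (cg (LE L) n f).trans (cg_word h y) ((cg (LE L) n f).symm (cg_word h y'))
  refine (h1 1 1).congr fun u => ?_
  simp

theorem dg_right {n : ℕ} {f : FreeMonoid L → A} (h : Dg (LE L) (n + 1) f) (z : FreeMonoid L) :
    Dg (LE L) n (fun y => f (y * z) - f y) := by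
  induction n generalizing f with
  | zero =>
    intro y
    show f (y * z) - f y = 0
    rw [const_of_dg h, const_of_dg h y, sub_self]
  | succ n ih =>
    intro e he a
    refine (ih (h e he a)).congr fun y => ?_
    simp only [mul_assoc]
    abel

theorem dg_pi {M : Type} [Monoid M] {E : Set (M × M)} {B : Type} {n : ℕ} {g : M → B → A}
    (h : ∀ b, Dg E n (fun p => g p b)) : Dg E n g := by
  induction n generalizing g with
  | zero => intro p; funext b; exact h b p
  | succ n ih =>
    intro e he a
    exact ih fun b => h b e he a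

/-- The word of a sequence of letters, some of which may be empty. -/
def ev {N : ℕ} (w : Fin N → Option L) : FreeMonoid L :=
  ((List.ofFn w).map fun o => o.elim 1 FreeMonoid.of).prod

theorem ev_append {m n : ℕ} (y : Fin m → Option L) (z : Fin n → Option L) :
    ev (Fin.append y z) = ev y * ev z := by
  unfold ev
  rw [List.ofFn_fin_append, List.map_append, List.prod_append]

/-- The additive case. -/
theorem add_case {f : FreeMonoid L → A} (h : ∀ y z, f (y * z) - f y = f z - f 1) {N : ℕ}
    (w : Fin N → Option L) :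
    f (ev w) = f 1 + ∑ i, (f ((w i).elim 1 FreeMonoid.of) - f 1) := by
  induction N with
  | zero => simp [ev]
  | succ N ih =>
    have h1 : ev w = (w 0).elim 1 FreeMonoid.of * ev (fun i : Fin N => w i.succ) := by
      unfold ev
      rw [List.ofFn_succ, List.map_cons, List.prod_cons]
    rw [h1, Fin.sum_univ_succ]
    have h2 := h ((w 0).elim 1 FreeMonoid.of) (ev (fun i : Fin N => w i.succ))
    rw [ih] at h2
    rw [sub_eq_iff_eq_add.1 h2]
    abel

end

section
variable {L : Type} [Fintype L] [DecidableEq L]

/-- The bound. -/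
noncomputable def bb (r : ℝ) (m N : ℕ) : ℝ := 3 * (r / (N + 1)) ^ ((1 / 2 : ℝ) ^ m)

theorem bb_nonneg {r : ℝ} (hr : 0 ≤ r) (m N : ℕ) : 0 ≤ bb r m N := by
  unfold bb
  positivity

theorem bb_step {r : ℝ} (hr : 0 < r) {m : ℕ} (hm : m ≠ 0) {N N₁ N₂ : ℕ} (h₁ : N + 1 ≤ 2 * (N₁ + 1))
    (h₂ : N + 1 ≤ 2 * (N₂ + 1)) : bb r m N₁ + bb r m N₂ ≤ (bb r (m + 1) N) ^ 2 := by
  set a : ℝ := (1 / 2 : ℝ) ^ m with ha
  have ha0 : 0 < a := by positivity
  have ha1 : a ≤ 1 / 2 := by
    obtain ⟨k, rfl⟩ := Nat.exists_eq_succ_of_ne_zero hm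
    rw [ha, pow_succ]
    have : (1 / 2 : ℝ) ^ k ≤ 1 := pow_le_one₀ (by norm_num) (by norm_num)
    linarith
  have hN : (0 : ℝ) < (N : ℝ) + 1 := by positivity
  have key : ∀ M : ℕ, N + 1 ≤ 2 * (M + 1) → bb r m M ≤ 3 * (3 / 2) * (r / (N + 1)) ^ a := by
    intro M hM
    have h1 : r / ((M : ℝ) + 1) ≤ 2 * (r / (N + 1)) := by
      rw [← mul_div_assoc, div_le_div_iff₀ (by positivity) hN]
      have h2 : ((N : ℝ) + 1) ≤ 2 * (M + 1) := by exact_mod_cast hM
      nlinarith
    have h3 : (r / ((M : ℝ) + 1)) ^ a ≤ (2 * (r / (N + 1))) ^ a :=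
      Real.rpow_le_rpow (by positivity) h1 ha0.le
    have h4 : (2 * (r / ((N : ℝ) + 1))) ^ a = 2 ^ a * (r / (N + 1)) ^ a :=
      Real.mul_rpow (by norm_num) (by positivity)
    have h5 : (2 : ℝ) ^ a ≤ 3 / 2 := by
      calc (2 : ℝ) ^ a ≤ 2 ^ (1 / 2 : ℝ) := Real.rpow_le_rpow_of_exponent_le (by norm_num) ha1
        _ = Real.sqrt 2 := (Real.sqrt_eq_rpow 2).symm
        _ ≤ 3 / 2 := by
          rw [Real.sqrt_le_left (by norm_num)]
          norm_num
    unfold bb
    rw [← ha, mul_assoc]
    refine mul_le_mul_of_nonneg_left ?_ (by norm_num)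
    refine h3.trans ?_
    rw [h4]
    exact mul_le_mul_of_nonneg_right h5 (by positivity)
  have e : (bb r (m + 1) N) ^ 2 = 9 * (r / (N + 1)) ^ a := by
    have e2 : (1 / 2 : ℝ) ^ (m + 1) * ((2 : ℕ) : ℝ) = a := by
      rw [ha, pow_succ]; push_cast; ring
    unfold bb
    rw [mul_pow, ← Real.rpow_natCast (_ ^ _) 2, ← Real.rpow_mul (by positivity), e2]
    norm_num
  rw [e]
  have := key N₁ h₁
  have := key N₂ h₂
  linarith

open Classical in
/-- **Anti-concentration** of functions of finite degree on words. -/
theorem poly_count (m : ℕ) : ∀ {A : Type} [AddCommGroup A]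
    (_ : ∀ (n : ℕ) (a : A), n ≠ 0 → n • a = 0 → a = 0) (f : FreeMonoid L → A)
    (_ : Dg (LE L) (m + 1) f) (w₀ : FreeMonoid L) (_ : f w₀ ≠ f 1) (N : ℕ) (c : A),
    (#{w : Fin N → Option L | f (ev w) = c} : ℝ) ≤
      bb (Fintype.card (Option L)) m N * (Fintype.card (Option L) : ℝ) ^ N := by
  have hX : (0 : ℝ) < Fintype.card (Option L) := by
    exact_mod_cast Fintype.card_pos
  induction m with
  | zero =>
    intro A _ _ f hf w₀ h₀
    exact absurd (const_of_dg hf w₀) h₀
  | succ m ih =>
    intro A _ htf f hf w₀ h₀ N c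
    -- trivial if the bound is at least one
    rcases le_or_gt ((N : ℝ) + 1) (Fintype.card (Option L)) with hN | hN
    · have h1 : (#{w : Fin N → Option L | f (ev w) = c} : ℝ) ≤
          (Fintype.card (Option L) : ℝ) ^ N := by
        have := card_le_univ (univ.filter fun w : Fin N → Option L => f (ev w) = c)
        rw [Fintype.card_fun, Fintype.card_fin] at this
        exact_mod_cast this
      refine h1.trans (le_mul_of_one_le_left (by positivity) ?_)
      unfold bb
      have h2 : (1 : ℝ) ≤ (Fintype.card (Option L) : ℝ) / (N + 1) := by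
        rw [le_div_iff₀ (by positivity)]; linarith
      have h3 : (1 : ℝ) ≤ ((Fintype.card (Option L) : ℝ) / (N + 1)) ^ ((1 / 2 : ℝ) ^ (m + 1)) :=
        Real.one_le_rpow h2 (by positivity)
      linarith
    set g : FreeMonoid L → FreeMonoid L → A := fun y z => f (y * z) - f y with hg
    by_cases hgc : ∀ y, g y = g 1
    · -- additive
      have hadd : ∀ y z, f (y * z) - f y = f z - f 1 := by
        intro y z
        have := congrFun (hgc y) z
        simpa [hg] using this
      obtain ⟨s, hs⟩ : ∃ s, f (FreeMonoid.of s) - f 1 ≠ 0 := by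
        by_contra hcon
        push Not at hcon
        apply h₀
        have : ∀ w, f w = f 1 := by
          intro w
          induction w using FreeMonoid.recOn with
          | one => rfl
          | of_mul s w ih =>
            have h1 := hadd (FreeMonoid.of s) w
            rw [ih, sub_self] at h1
            rw [sub_eq_zero.1 h1, sub_eq_zero.1 (hcon s)]
        exact this w₀
      have h1 := count_le (fun x : Option L => f (x.elim 1 FreeMonoid.of) - f 1) none (some s)
        (by simp) (fun n hn h => hs (htf n _ hn h)) N (c - f 1)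
      have h2 : (univ.filter fun w : Fin N → Option L => f (ev w) = c) =
          univ.filter fun w : Fin N → Option L =>
            ∑ i, (f ((w i).elim 1 FreeMonoid.of) - f 1) = c - f 1 := by
        refine filter_congr fun w _ => ?_
        rw [add_case hadd w]
        constructor
        · intro h; rw [← h]; abel
        · intro h; rw [h]; abel
      rw [h2]
      refine h1.trans ?_
      rw [mul_comm]
      refine mul_le_mul_of_nonneg_right ?_ (by positivity)
      set x : ℝ := (Fintype.card (Option L) : ℝ) / (N + 1) with hx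
      have hx0 : 0 < x := by positivity
      have hx1 : x ≤ 1 := by
        rw [hx, div_le_one (by positivity)]; exact hN.le
      have e1 : (Fintype.card (Option L) : ℝ) / (2 * (N + 1)) = x / 2 := by
        rw [hx]; field_simp
      rw [e1]
      unfold bb
      rw [← hx]
      have h3 : Real.sqrt (x / 2) ≤ x ^ (1 / 2 : ℝ) := by
        rw [← Real.sqrt_eq_rpow]
        exact Real.sqrt_le_sqrt (by linarith)
      have h4 : x ^ (1 / 2 : ℝ) ≤ x ^ ((1 / 2 : ℝ) ^ (m + 1)) := by
        refine Real.rpow_le_rpow_of_exponent_ge hx0 hx1 ?_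
        rw [pow_succ]
        have : (1 / 2 : ℝ) ^ m ≤ 1 := pow_le_one₀ (by norm_num) (by norm_num)
        linarith
      have h5 : 0 ≤ x ^ ((1 / 2 : ℝ) ^ (m + 1)) := by positivity
      linarith
    · -- the general case
      push Not at hgc
      obtain ⟨y₀, hy₀⟩ := hgc
      have hgd : Dg (LE L) (m + 1) g := dg_pi fun z => dg_right hf z
      have hm : m ≠ 0 := by
        rintro rfl
        exact hy₀ (const_of_dg hgd y₀)
      have htf' : ∀ (n : ℕ) (a : FreeMonoid L → A), n ≠ 0 → n • a = 0 → a = 0 := by
        intro n a hn h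
        funext z
        exact htf n _ hn (congrFun h z)
      obtain ⟨N₁, N₂, hN12, h1, h2⟩ : ∃ N₁ N₂, N₁ + N₂ = N ∧ N + 1 ≤ 2 * (N₁ + 1) ∧
          N + 1 ≤ 2 * (N₂ + 1) := ⟨N / 2, N - N / 2, by omega, by omega, by omega⟩
      subst hN12
      set X := (Fintype.card (Option L) : ℝ) with hXd
      set S := univ.filter fun w : Fin (N₁ + N₂) → Option L => f (ev w) = c with hS
      set S' := univ.filter fun p : (Fin N₁ → Option L) × (Fin N₂ → Option L) =>
        f (ev p.1 * ev p.2) = c with hS'
      have hSS' : S.card = S'.card := by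
        symm
        refine card_bij (fun p _ => Fin.append p.1 p.2) (fun p hp => ?_) (fun p _ q _ h => ?_)
          (fun w hw => ?_)
        · rw [hS, mem_filter]
          refine ⟨mem_univ _, ?_⟩
          rw [ev_append]
          exact (mem_filter.1 hp).2
        · have h3 : ∀ i, p.1 i = q.1 i := fun i => by
            have := congrFun h (Fin.castAdd N₂ i)
            simpa using this
          have h4 : ∀ i, p.2 i = q.2 i := fun i => by
            have := congrFun h (Fin.natAdd N₁ i)
            simpa using this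
          exact Prod.ext (funext h3) (funext h4)
        · refine ⟨(fun i => w (Fin.castAdd N₂ i), fun i => w (Fin.natAdd N₁ i)), ?_, ?_⟩
          · rw [hS', mem_filter]
            refine ⟨mem_univ _, ?_⟩
            rw [← ev_append, Fin.append_castAdd_natAdd]
            exact (mem_filter.1 hw).2
          · exact Fin.append_castAdd_natAdd
      rw [hSS']
      -- Cauchy-Schwarz
      have hcs : ((S'.card : ℕ) : ℝ) ^ 2 ≤ X ^ N₂ *
          ∑ z : Fin N₂ → Option L, ((#{y : Fin N₁ → Option L | f (ev y * ev z) = c} : ℕ) : ℝ) ^ 2 := by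
        have e1 : ((S'.card : ℕ) : ℝ) = ∑ z : Fin N₂ → Option L,
            ((#{y : Fin N₁ → Option L | f (ev y * ev z) = c} : ℕ) : ℝ) := by
          rw [hS', card_filter, Fintype.sum_prod_type, sum_comm]
          push_cast
          refine sum_congr rfl fun z _ => ?_
          rw [card_filter]
          push_cast
          rfl
        rw [e1]
        have := sq_sum_le_card_mul_sum_sq (s := (univ : Finset (Fin N₂ → Option L)))
          (f := fun z => ((#{y : Fin N₁ → Option L | f (ev y * ev z) = c} : ℕ) : ℝ))
        refine this.trans (le_of_eq ?_)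
        rw [card_univ, Fintype.card_fun, Fintype.card_fin]
        push_cast
        rfl
      have hpairs : ∑ z : Fin N₂ → Option L,
          ((#{y : Fin N₁ → Option L | f (ev y * ev z) = c} : ℕ) : ℝ) ^ 2 ≤
          ∑ y : Fin N₁ → Option L, ∑ y' : Fin N₁ → Option L,
            ((#{z : Fin N₂ → Option L | f (ev y * ev z) - f (ev y' * ev z) = 0} : ℕ) : ℝ) := by
        have e1 : ∀ z : Fin N₂ → Option L,
            ((#{y : Fin N₁ → Option L | f (ev y * ev z) = c} : ℕ) : ℝ) ^ 2 ≤
            ∑ y : Fin N₁ → Option L, ∑ y' : Fin N₁ → Option L,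
              (if f (ev y * ev z) - f (ev y' * ev z) = 0 then (1 : ℝ) else 0) := by
          intro z
          rw [sq, card_filter]
          push_cast
          rw [sum_mul_sum]
          refine sum_le_sum fun y _ => sum_le_sum fun y' _ => ?_
          by_cases hy : f (ev y * ev z) = c
          · by_cases hy' : f (ev y' * ev z) = c
            · rw [if_pos hy, if_pos hy', if_pos (by rw [hy, hy', sub_self])]
              norm_num
            · rw [if_neg hy', mul_zero]
              split_ifs <;> norm_num
          · rw [if_neg hy, zero_mul]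
            split_ifs <;> norm_num
        refine (sum_le_sum fun z _ => e1 z).trans (le_of_eq ?_)
        rw [sum_comm]
        refine sum_congr rfl fun y _ => ?_
        rw [sum_comm]
        refine sum_congr rfl fun y' _ => ?_
        rw [card_filter]
        push_cast
        rfl
      have hterm : ∀ y y' : Fin N₁ → Option L,
          ((#{z : Fin N₂ → Option L | f (ev y * ev z) - f (ev y' * ev z) = 0} : ℕ) : ℝ) ≤
          bb X m N₂ * X ^ N₂ + (if g (ev y) = g (ev y') then X ^ N₂ else 0) := by
        intro y y'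
        by_cases hyy : g (ev y) = g (ev y')
        · rw [if_pos hyy]
          have h3 : ((#{z : Fin N₂ → Option L | f (ev y * ev z) - f (ev y' * ev z) = 0} : ℕ) : ℝ) ≤
              X ^ N₂ := by
            have := card_le_univ
              (univ.filter fun z : Fin N₂ → Option L => f (ev y * ev z) - f (ev y' * ev z) = 0)
            rw [Fintype.card_fun, Fintype.card_fin] at this
            rw [hXd]
            exact_mod_cast this
          have h4 : 0 ≤ bb X m N₂ * X ^ N₂ := mul_nonneg (bb_nonneg hX.le _ _) (by positivity)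
          linarith
        · rw [if_neg hyy, add_zero]
          obtain ⟨z₀, hz₀⟩ : ∃ z, g (ev y) z ≠ g (ev y') z := by
            by_contra hcon
            push Not at hcon
            exact hyy (funext hcon)
          refine ih htf (fun z => f (ev y * z) - f (ev y' * z)) (dg_left hf _ _) z₀ ?_ N₂ 0
          intro h
          apply hz₀
          simp only [mul_one] at h
          simp only [hg]
          rw [sub_eq_sub_iff_add_eq_add] at h ⊢
          rw [h, add_comm]
      have hgcount : ∀ y' : Fin N₁ → Option L,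
          ((#{y : Fin N₁ → Option L | g (ev y) = g (ev y')} : ℕ) : ℝ) ≤ bb X m N₁ * X ^ N₁ :=
        fun y' => ih htf' g hgd y₀ hy₀ N₁ _
      have hsum : ∑ y : Fin N₁ → Option L, ∑ y' : Fin N₁ → Option L,
            ((#{z : Fin N₂ → Option L | f (ev y * ev z) - f (ev y' * ev z) = 0} : ℕ) : ℝ) ≤
          X ^ N₁ * X ^ N₁ * (bb X m N₂ * X ^ N₂) + X ^ N₁ * (bb X m N₁ * X ^ N₁) * X ^ N₂ := by
        refine (sum_le_sum fun y _ => sum_le_sum fun y' _ => hterm y y').trans ?_
        rw [sum_comm]
        have e1 : ∀ y' : Fin N₁ → Option L, ∑ y : Fin N₁ → Option L,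
            (bb X m N₂ * X ^ N₂ + (if g (ev y) = g (ev y') then X ^ N₂ else 0)) ≤
            X ^ N₁ * (bb X m N₂ * X ^ N₂) + (bb X m N₁ * X ^ N₁) * X ^ N₂ := by
          intro y'
          rw [sum_add_distrib, sum_const, card_univ, Fintype.card_fun, Fintype.card_fin,
            nsmul_eq_mul, ← sum_filter, sum_const, nsmul_eq_mul]
          refine add_le_add (le_of_eq ?_) (mul_le_mul_of_nonneg_right (hgcount y') (by positivity))
          push_cast
          rfl
        refine (sum_le_sum fun y' _ => e1 y').trans (le_of_eq ?_)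
        rw [sum_const, card_univ, Fintype.card_fun, Fintype.card_fin, nsmul_eq_mul]
        push_cast
        rw [← hXd]
        ring
      have hfin : ((S'.card : ℕ) : ℝ) ^ 2 ≤ (bb X (m + 1) (N₁ + N₂) * X ^ (N₁ + N₂)) ^ 2 := by
        calc ((S'.card : ℕ) : ℝ) ^ 2 ≤ X ^ N₂ * _ := hcs
          _ ≤ X ^ N₂ * (X ^ N₁ * X ^ N₁ * (bb X m N₂ * X ^ N₂) +
              X ^ N₁ * (bb X m N₁ * X ^ N₁) * X ^ N₂) :=
            mul_le_mul_of_nonneg_left (hpairs.trans hsum) (by positivity)
          _ = (bb X m N₁ + bb X m N₂) * (X ^ (N₁ + N₂)) ^ 2 := by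
            rw [pow_add]; ring
          _ ≤ (bb X (m + 1) (N₁ + N₂)) ^ 2 * (X ^ (N₁ + N₂)) ^ 2 :=
            mul_le_mul_of_nonneg_right (bb_step hX hm h1 h2) (by positivity)
          _ = _ := by ring
      exact le_of_sq_le_sq hfin (mul_nonneg (bb_nonneg hX.le _ _) (by positivity))

end

end Pool.Agent.Y466.RW
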