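import Pool.Agent.Y466.RW.Defs
import Pool.Agent.Y466.RW.Poly
import Pool.Agent.Y466.FT.Fam

/-!
# Random words in pure braids: the value of a Vassiliev invariant
-/

set_option autoImplicit false

namespace Pool.Agent.Y466.RW

open Finset Pool.Agent.H835R2 Pool.Agent.H835R2.Knot Pool.Agent.Y466.FT

section
variable {M : Type} [Monoid M] {A : Type} [AddCommGroup A] {E R : Set (M × M)} {L : Type}

theorem iv_trans {φ : M → A} (h : Iv R φ) (b : M) : Iv R (fun p => φ (b * p)) := by
  intro r hr a c
  have := h r hr (b * a) c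
  simpa only [mul_assoc] using this

theorem dg_comp {n : ℕ} {φ : M → A} (h : Dg E n φ) (hR : Iv R φ) (X : FreeMonoid L →* M)
    (hX : ∀ s, Pu R E (X (FreeMonoid.of s))) : Dg (LE L) n (fun w => φ (X w)) := by
  induction n generalizing φ with
  | zero => intro w; exact h _
  | succ n ih =>
    rintro e ⟨s, rfl⟩ a
    have h1 := Dg.tr (h.trans (X a)) (iv_trans hR (X a)) (hX s)
    have h2 := (iv_trans hR (X a)).tr (X (FreeMonoid.of s))
    refine (ih h1 h2).congr fun w => ?_
    simp only [Tr, map_mul, mul_assoc, mul_one]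

theorem pu_one : Pu R E 1 := fun c _ _ => c.refl 1

theorem pu_mul {a b : M} (ha : Pu R E a) (hb : Pu R E b) : Pu R E (a * b) := by
  intro c hR hE
  have := c.mul (ha c hR hE) (hb c hR hE)
  rwa [one_mul] at this

end

section
variable {k : ℕ} {m : Fin k → ℕ}

theorem pu_pi {R E : Set ((Fin k → FreeMonoid (Bool × ℕ)) × (Fin k → FreeMonoid (Bool × ℕ)))}
    (p : Fin k → FreeMonoid (Bool × ℕ)) (h : ∀ j, Pu R E (Pi.mulSingle j (p j))) : Pu R E p := by
  classical
  have key : ∀ s : Finset (Fin k), Pu R E (fun i => if i ∈ s then p i else 1) := by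
    intro s
    induction s using Finset.induction_on with
    | empty =>
      have e : (fun i => if i ∈ (∅ : Finset (Fin k)) then p i else 1) = 1 := by
        funext i
        simp
      rw [e]
      exact pu_one
    | insert j s hj ih =>
      have e : (fun i => if i ∈ insert j s then p i else 1) =
          Pi.mulSingle j (p j) * (fun i => if i ∈ s then p i else 1) := by
        funext i
        rw [Pi.mul_apply]
        by_cases hij : i = j
        · subst hij; simp [hj]
        · rw [Pi.mulSingle_eq_of_ne hij, one_mul]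
          simp [hij]
      rw [e]
      exact pu_mul (h j) ih
  simpa using key univ

end

/-! ### Families given by words -/

/-- Families of knots, indexed by words, on which the degree of all Vassiliev invariants is
bounded. -/
def WFam {L : Type} (D : FreeMonoid L → Word) : Prop :=
  (∀ w, IsKnot (D w)) ∧ ∀ {A : Type} [AddCommGroup A] (n : ℕ) (v : Word → A),
      IsInvariant v → DegreeLE n v → Dg (LE L) (n + 1) (fun w => v (D w))

section
variable {L : Type} {k : ℕ} (u₀ : Word) (u : Fin k → Word) (x : L → Fin k → Braid)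

/-- The braid words at the places. -/
def hom : FreeMonoid L →* (Fin k → FreeMonoid (Bool × ℕ)) :=
  FreeMonoid.lift fun s i => FreeMonoid.ofList (x s i)

/-- The diagram of a word. -/
def diag (w : FreeMonoid L) : Word := plug u₀ u piece (hom x w)

theorem rand_eq {N : ℕ} (w : Fin N → Option L) : rand u₀ u x w = diag u₀ u x (ev w) := by
  unfold rand diag plug
  congr 3
  funext i
  congr 1
  show draw _ = draw (hom x (ev w) i).toList
  congr 1
  have e : hom x (ev w) i =
      ((List.ofFn w).map fun o => o.elim 1 fun s => FreeMonoid.ofList (x s i)).prod := by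
    unfold ev
    rw [map_list_prod]
    have e1 := map_list_prod (Pi.evalMonoidHom (fun _ : Fin k => FreeMonoid (Bool × ℕ)) i)
      (((List.ofFn w).map fun o => Option.elim o 1 FreeMonoid.of).map (hom x))
    refine e1.trans ?_
    rw [List.map_map, List.map_map]
    congr 1
    refine List.map_congr_left fun o _ => ?_
    cases o with
    | none =>
      show (hom x 1) i = 1
      rw [map_one]; rfl
    | some s =>
      show (hom x (FreeMonoid.of s)) i = FreeMonoid.ofList (x s i)
      unfold hom
      rw [FreeMonoid.lift_eval_of]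
  rw [e, FreeMonoid.toList_prod, List.map_map, List.map_ofFn]
  congr 2

theorem diag_letters {s : L} (h : IsKnot (diag u₀ u x (FreeMonoid.of s))) (j : Fin k) :
    ∀ l ∈ x s j, l.2 + 1 < wd u₀ u j := by
  unfold diag at h
  rw [split_single (hom x (FreeMonoid.of s)) j] at h
  obtain ⟨y, hy⟩ := plug_single u₀ u piece 1 (Function.update (hom x (FreeMonoid.of s)) j 1) j
  have h1 := hy (hom x (FreeMonoid.of s) j)
  rw [one_mul] at h1
  rw [h1] at h
  have h2 := h.1.1
  rw [fits_append, fits_append] at h2
  have h3 := h2.1.2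
  have e : (hom x (FreeMonoid.of s) j).toList.map piece = draw (x s j) := by
    unfold hom
    rw [FreeMonoid.lift_eval_of]
    rfl
  rw [e] at h3
  have h4 := of_fits_draw h3
  intro l hl
  refine lt_of_lt_of_eq (h4 l hl) ?_
  rw [run_n]
  exact wdt_above u₀ u _ j _

theorem wfam (hp : ∀ s j, IsPure (x s j)) (h : ∀ s, IsKnot (diag u₀ u x (FreeMonoid.of s)))
    (h1 : IsKnot (diag u₀ u x 1)) : WFam (diag u₀ u x) := by
  have hX : ∀ s, Pu (RS (wd u₀ u)) (ES (wd u₀ u)) (hom x (FreeMonoid.of s)) := by
    intro s
    refine pu_pi _ fun j => ?_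
    have e : hom x (FreeMonoid.of s) j = FreeMonoid.ofList (x s j) := by
      unfold hom
      rw [FreeMonoid.lift_eval_of]
    rw [e]
    exact pu (diag_letters u₀ u x (h s) j) (hp s j)
  have hk : ∀ w, IsKnot (diag u₀ u x w) := by
    intro w
    have hd : DegreeLE 0 (fun _ : Word => (1 : ℤ)) := by
      intro D _ S _ hS
      obtain ⟨x, rfl⟩ := Finset.card_eq_one.1 (by simpa using hS)
      rw [show ({x} : Finset ℕ).powerset = {∅, {x}} from rfl]
      rw [Finset.sum_pair (by simp)]
      simp
    have h2 := dg_comp (dg_phi u₀ u hd) (iv_phi u₀ u (fun _ _ _ _ => rfl)) (hom x) hX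
    have h3 := const_of_dg h2 w
    by_contra hq
    have e1 : phi u₀ u (fun _ => (1 : ℤ)) (hom x 1) = 1 := if_pos h1
    have e2 : phi u₀ u (fun _ => (1 : ℤ)) (hom x w) = 0 := if_neg hq
    rw [e1, e2] at h3
    exact absurd h3 (by norm_num)
  refine ⟨hk, fun {A} _ n v hv hn => ?_⟩
  refine (dg_comp (dg_phi u₀ u hn) (iv_phi u₀ u hv) (hom x) hX).congr fun w => ?_
  exact if_pos (hk w)

end

/-! ### Counting -/

section
variable {L L' : Type} [Fintype L] [DecidableEq L] [Fintype L'] [DecidableEq L']
  {D : FreeMonoid L → Word} {D' : FreeMonoid L' → Word}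

/-- No value is taken too often. -/
theorem value (hD : WFam D) {A : Type} [AddCommGroup A] [DecidableEq A]
    (htf : ∀ (n : ℕ) (a : A), n ≠ 0 → n • a = 0 → a = 0) {n : ℕ} {v : Word → A}
    (hv : IsInvariant v) (hn : DegreeLE n v) {w₀ w₁ : FreeMonoid L} (h₀ : v (D w₀) ≠ v (D w₁))
    (N : ℕ) (c : A) :
    (#{w : Fin N → Option L | v (D (ev w)) = c} : ℝ) ≤
      bb (Fintype.card (Option L)) n N * (Fintype.card (Option L) : ℝ) ^ N := by
  obtain ⟨w, hw⟩ : ∃ w, v (D w) ≠ v (D 1) := by
    by_contra hcon
    push Not at hcon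
    exact h₀ (by rw [hcon, hcon w₁])
  have := poly_count n htf (fun w => v (D w)) (hD.2 n v hv hn) w hw N c
  convert this

theorem tf_rat (n : ℕ) (a : ℚ) (hn : n ≠ 0) (h : n • a = 0) : a = 0 := by
  rw [nsmul_eq_mul] at h
  rcases mul_eq_zero.1 h with h | h
  · exact absurd (Nat.cast_eq_zero.1 h) hn
  · exact h

open Classical in
theorem pair_count (hD : WFam D) (hD' : WFam D') {n : ℕ} {w₀ : FreeMonoid L}
    {w₀' : FreeMonoid L'} (h : Separated n (D w₀) (D' w₀')) (N N' : ℕ) :
    (#{z : (Fin N → Option L) × (Fin N' → Option L') |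
      ¬ Separated n (D (ev z.1)) (D' (ev z.2))} : ℝ) ≤
      (bb (Fintype.card (Option L)) n N + bb (Fintype.card (Option L')) n N') *
      ((Fintype.card (Option L) : ℝ) ^ N * (Fintype.card (Option L') : ℝ) ^ N') := by
  obtain ⟨v, hv, hn, hne⟩ := h
  have hX : (0 : ℝ) < Fintype.card (Option L) := by exact_mod_cast Fintype.card_pos
  have hX' : (0 : ℝ) < Fintype.card (Option L') := by exact_mod_cast Fintype.card_pos
  have h0 : (#{z : (Fin N → Option L) × (Fin N' → Option L') |
      ¬ Separated n (D (ev z.1)) (D' (ev z.2))} : ℝ) ≤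
      #{z : (Fin N → Option L) × (Fin N' → Option L') | v (D (ev z.1)) = v (D' (ev z.2))} := by
    have := card_le_card (s := univ.filter fun z : (Fin N → Option L) × (Fin N' → Option L') =>
      ¬ Separated n (D (ev z.1)) (D' (ev z.2))) (t := univ.filter fun z :
        (Fin N → Option L) × (Fin N' → Option L') => v (D (ev z.1)) = v (D' (ev z.2)))
      (fun z hz => by
        rw [mem_filter] at hz ⊢
        refine ⟨hz.1, ?_⟩
        by_contra hcon
        exact hz.2 ⟨v, hv, hn, hcon⟩)
    exact_mod_cast this
  refine h0.trans ?_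
  have hb := bb_nonneg hX.le n N
  have hb' := bb_nonneg hX'.le n N'
  by_cases hc : ∃ w₁, v (D w₁) ≠ v (D w₀)
  · obtain ⟨w₁, hw₁⟩ := hc
    have e1 : ((#{z : (Fin N → Option L) × (Fin N' → Option L') |
        v (D (ev z.1)) = v (D' (ev z.2))} : ℕ) : ℝ) =
        ∑ z' : Fin N' → Option L', ((#{z : Fin N → Option L |
          v (D (ev z)) = v (D' (ev z'))} : ℕ) : ℝ) := by
      rw [card_filter, Fintype.sum_prod_type, sum_comm]
      push_cast
      refine sum_congr rfl fun z _ => ?_
      rw [card_filter]
      push_cast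
      rfl
    rw [e1]
    refine (sum_le_sum fun z' _ => value hD tf_rat hv hn hw₁ N _).trans ?_
    rw [sum_const, card_univ, Fintype.card_fun, Fintype.card_fin, nsmul_eq_mul]
    push_cast
    rw [add_mul]
    refine le_trans (le_of_eq ?_) (le_add_of_nonneg_right (by positivity))
    ring
  · by_cases hc' : ∃ w₁, v (D' w₁) ≠ v (D' w₀')
    · obtain ⟨w₁, hw₁⟩ := hc'
      have e1 : ((#{z : (Fin N → Option L) × (Fin N' → Option L') |
          v (D (ev z.1)) = v (D' (ev z.2))} : ℕ) : ℝ) =
          ∑ z : Fin N → Option L, ((#{z' : Fin N' → Option L' |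
            v (D' (ev z')) = v (D (ev z))} : ℕ) : ℝ) := by
        rw [card_filter, Fintype.sum_prod_type]
        push_cast
        refine sum_congr rfl fun z _ => ?_
        rw [card_filter]
        push_cast
        refine sum_congr rfl fun z' _ => ?_
        simp only [eq_comm]
      rw [e1]
      refine (sum_le_sum fun z _ => value hD' tf_rat hv hn hw₁ N' _).trans ?_
      rw [sum_const, card_univ, Fintype.card_fun, Fintype.card_fin, nsmul_eq_mul]
      push_cast
      rw [add_mul]
      refine le_trans (le_of_eq ?_) (le_add_of_nonneg_left (by positivity))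
      ring
    · push Not at hc hc'
      have e1 : (univ.filter fun z : (Fin N → Option L) × (Fin N' → Option L') =>
          v (D (ev z.1)) = v (D' (ev z.2))) = ∅ := by
        rw [filter_eq_empty_iff]
        intro z _ hz
        rw [hc, hc'] at hz
        exact hne hz
      rw [e1, card_empty]
      push_cast
      exact mul_nonneg (add_nonneg hb hb') (by positivity)

open Classical in
theorem one_count (hD : WFam D) {K : Word} {n : ℕ} {w₀ : FreeMonoid L}
    (h : Separated n (D w₀) K) (N : ℕ) :
    (#{w : Fin N → Option L | ¬ Separated n (D (ev w)) K} : ℝ) ≤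
      bb (Fintype.card (Option L)) n N * (Fintype.card (Option L) : ℝ) ^ N := by
  obtain ⟨v, hv, hn, hne⟩ := h
  have hX : (0 : ℝ) < Fintype.card (Option L) := by exact_mod_cast Fintype.card_pos
  have h0 : (#{w : Fin N → Option L | ¬ Separated n (D (ev w)) K} : ℝ) ≤
      #{w : Fin N → Option L | v (D (ev w)) = v K} := by
    have := card_le_card (s := univ.filter fun w : Fin N → Option L =>
      ¬ Separated n (D (ev w)) K) (t := univ.filter fun w : Fin N → Option L =>
        v (D (ev w)) = v K)
      (fun z hz => by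
        rw [mem_filter] at hz ⊢
        refine ⟨hz.1, ?_⟩
        by_contra hcon
        exact hz.2 ⟨v, hv, hn, hcon⟩)
    exact_mod_cast this
  refine h0.trans ?_
  by_cases hc : ∃ w₁, v (D w₁) ≠ v (D w₀)
  · obtain ⟨w₁, hw₁⟩ := hc
    exact value hD tf_rat hv hn hw₁ N _
  · push Not at hc
    have e1 : (univ.filter fun w : Fin N → Option L => v (D (ev w)) = v K) = ∅ := by
      rw [filter_eq_empty_iff]
      intro z _ hz
      rw [hc] at hz
      exact hne hz
    rw [e1, card_empty]
    push_cast
    exact mul_nonneg (bb_nonneg hX.le _ _) (by positivity)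

end

/-! ### A finite test -/

theorem dg_short {L : Type} {A : Type} [AddCommGroup A] {m : ℕ} {f : FreeMonoid L → A}
    (h : Dg (LE L) m f) (h0 : ∀ w : FreeMonoid L, w.length < m → f w = 0) (w : FreeMonoid L) :
    f w = 0 := by
  induction m generalizing f w with
  | zero => exact h w
  | succ m ih =>
    induction w using FreeMonoid.recOn with
    | one => exact h0 1 (Nat.succ_pos m)
    | of_mul s w ihw =>
      have h1 := h _ ⟨s, rfl⟩ 1
      simp only [one_mul] at h1
      have h2 := ih h1 (fun w hw => by
        rw [h0 (FreeMonoid.of s * w) ?_, h0 w (Nat.lt_succ_of_lt hw), sub_self]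
        rw [FreeMonoid.length_mul, FreeMonoid.length_of]
        omega) w
      rw [sub_eq_zero.1 h2, ihw]

end Pool.Agent.Y466.RW
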