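import Pool.Agent.Y466.RW.Main

/-!
# Random words in pure braids and a fixed knot
-/

set_option autoImplicit false

namespace Pool.Agent.Y466.RW

open Finset Filter Topology Pool.Agent.H835R2 Pool.Agent.H835R2.Knot Pool.Agent.Y466.FT

theorem bb_tendsto (r : ℝ) (n : ℕ) : Tendsto (fun N : ℕ => bb r n N) atTop (𝓝 0) := by
  have h1 : Tendsto (fun N : ℕ => r * (1 / ((N : ℝ) + 1))) atTop (𝓝 (r * 0)) :=
    tendsto_one_div_add_atTop_nhds_zero_nat.const_mul r
  rw [mul_zero] at h1
  have ha : (0 : ℝ) < (1 / 2 : ℝ) ^ n := by positivity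
  have h2 := (h1.rpow_const (p := (1 / 2 : ℝ) ^ n) (Or.inr ha.le)).const_mul 3
  rw [Real.zero_rpow ha.ne', mul_zero] at h2
  refine h2.congr fun N => ?_
  unfold bb
  rw [mul_one_div]

section
variable {L : Type} [Fintype L] [DecidableEq L] {D : FreeMonoid L → Word} {K : Word}

open Classical in
theorem rigid (hD : WFam D)
    (h : ∃ δ : ℝ, 0 < δ ∧ ∀ N₀ : ℕ, ∃ N ≥ N₀, δ * (Fintype.card (Option L) : ℝ) ^ N ≤
      #{w : Fin N → Option L | ∀ n, ¬ Separated n (D (ev w)) K}) (w : FreeMonoid L) (n : ℕ) :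
    ¬ Separated n (D w) K := by
  intro hs
  obtain ⟨δ, hδ, h⟩ := h
  have hX : (0 : ℝ) < Fintype.card (Option L) := by exact_mod_cast Fintype.card_pos
  have h1 := (bb_tendsto (Fintype.card (Option L)) n).eventually (gt_mem_nhds hδ)
  obtain ⟨N₀, hN₀⟩ := eventually_atTop.1 h1
  obtain ⟨N, hN, hc⟩ := h N₀
  have h2 := one_count hD hs N
  have h3 : (#{w : Fin N → Option L | ∀ n, ¬ Separated n (D (ev w)) K} : ℝ) ≤
      #{w : Fin N → Option L | ¬ Separated n (D (ev w)) K} := by
    have := card_le_card (s := univ.filter fun w : Fin N → Option L =>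
      ∀ n, ¬ Separated n (D (ev w)) K) (t := univ.filter fun w : Fin N → Option L =>
        ¬ Separated n (D (ev w)) K)
      (fun z hz => by
        rw [mem_filter] at hz ⊢
        exact ⟨hz.1, hz.2 n⟩)
    exact_mod_cast this
  have h4 : δ * (Fintype.card (Option L) : ℝ) ^ N ≤
    bb (Fintype.card (Option L)) n N * (Fintype.card (Option L) : ℝ) ^ N := (hc.trans h3).trans h2
  have h5 := le_of_mul_le_mul_right h4 (by positivity)
  exact absurd (hN₀ N hN) (not_lt.2 h5)

omit [Fintype L] [DecidableEq L] in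
theorem test_sep (hD : WFam D) {n : ℕ} (h : ∀ w : Fin n → Option L, ¬ Separated n (D (ev w)) K)
    (w : FreeMonoid L) : ¬ Separated n (D w) K := by
  rintro ⟨v, hv, hn, hne⟩
  exact hne (test_one hD hv hn (v K) (fun z => by
    by_contra hcon
    exact h z ⟨v, hv, hn, hcon⟩) w)

end

end Pool.Agent.Y466.RW
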