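import Pool.Agent.Y466.RW.Knot

/-!
# Random words in pure braids: the main theorems
-/

set_option autoImplicit false

namespace Pool.Agent.Y466.RW

open Finset Pool.Agent.H835R2 Pool.Agent.H835R2.Knot Pool.Agent.Y466.FT

section
variable {L : Type} {k : ℕ} {u₀ : Word} {u : Fin k → Word} {x : L → Fin k → Braid}

theorem ev_one (o : Option L) : ev (fun _ : Fin 1 => o) = o.elim 1 FreeMonoid.of := by
  simp [ev]

theorem wfam_rand (hp : ∀ s j, IsPure (x s j))
    (h : ∀ o : Option L, IsKnot (rand u₀ u x fun _ : Fin 1 => o)) : WFam (diag u₀ u x) := by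
  refine wfam u₀ u x hp (fun s => ?_) ?_
  · have := h (some s)
    rwa [rand_eq, ev_one] at this
  · have := h none
    rwa [rand_eq, ev_one] at this

theorem exists_ev {n : ℕ} (w : FreeMonoid L) (hw : w.length ≤ n) :
    ∃ z : Fin n → Option L, ev z = w := by
  induction w using FreeMonoid.recOn generalizing n with
  | one =>
    refine ⟨fun _ => none, ?_⟩
    unfold ev
    rw [List.map_ofFn]
    apply List.prod_eq_one
    intro y hy
    obtain ⟨i, rfl⟩ := (List.mem_ofFn' _ _).1 hy
    rfl
  | of_mul s w ih =>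
    rw [FreeMonoid.length_mul, FreeMonoid.length_of] at hw
    obtain ⟨n', rfl⟩ : ∃ n', n = n' + 1 := ⟨n - 1, by omega⟩
    obtain ⟨z, hz⟩ := ih (n := n') (by omega)
    refine ⟨Fin.cons (some s) z, ?_⟩
    rw [← hz]
    unfold ev
    rw [List.ofFn_succ, List.map_cons, List.prod_cons]
    simp

theorem exists_word (w : FreeMonoid L) : ∃ (n : ℕ) (z : Fin n → Option L), ev z = w :=
  ⟨w.length, exists_ev w le_rfl⟩

end

section
variable {L L' : Type} {D : FreeMonoid L → Word} {D' : FreeMonoid L' → Word}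

theorem test_one (hD : WFam D) {A : Type} [AddCommGroup A] {n : ℕ} {v : Word → A}
    (hv : IsInvariant v) (hn : DegreeLE n v) (c : A)
    (h : ∀ w : Fin n → Option L, v (D (ev w)) = c) (w : FreeMonoid L) : v (D w) = c := by
  have h1 := hD.2 n v hv hn
  have h2 : Dg (LE L) (n + 1) (fun _ => c) := by
    rintro e ⟨s, rfl⟩ a
    simp only [sub_self]
    exact Dg.zero n
  have h3 := dg_short (h1.sub h2) (fun w hw => by
    obtain ⟨z, rfl⟩ := exists_ev (n := n) w (Nat.lt_succ_iff.1 hw)
    rw [h z, sub_self]) w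
  exact sub_eq_zero.1 h3

theorem test_pair (hD : WFam D) (hD' : WFam D') {A : Type} [AddCommGroup A] {n : ℕ}
    {v : Word → A} (hv : IsInvariant v) (hn : DegreeLE n v)
    (h : ∀ (w : Fin n → Option L) (w' : Fin n → Option L'), v (D (ev w)) = v (D' (ev w')))
    (w : FreeMonoid L) (w' : FreeMonoid L') : v (D w) = v (D' w') := by
  obtain ⟨z, hz⟩ := exists_ev (L := L) (n := n) 1 (Nat.zero_le _)
  obtain ⟨z', hz'⟩ := exists_ev (L := L') (n := n) 1 (Nat.zero_le _)
  have h1 := test_one hD hv hn (v (D' (ev z'))) (fun y => h y z') w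
  have h2 := test_one hD' hv hn (v (D (ev z))) (fun y => (h z y).symm) w'
  rw [h1, h2, ← h z z']

end

end Pool.Agent.Y466.RW
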