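import Mathlib

/-!
# Sums of independent letters with values in a torsion-free group
-/

set_option autoImplicit false

namespace Pool.Agent.Y466.RW

open Finset

/-- The largest binomial coefficient. -/
def bm (t : ℕ) : ℕ := t.choose (t / 2)

theorem choose_le_bm (t k : ℕ) : t.choose k ≤ bm t := Nat.choose_le_middle k t

theorem cb (n : ℕ) : (2 * n + 1) * (Nat.centralBinom n) ^ 2 ≤ 16 ^ n := by
  induction n with
  | zero => simp
  | succ n ih =>
    have h := Nat.succ_mul_centralBinom_succ n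
    -- (n+1) * C(n+1) = 2 (2n+1) C(n)
    have h1 : (n + 1) ^ 2 * ((2 * (n + 1) + 1) * (Nat.centralBinom (n + 1)) ^ 2) ≤
        (n + 1) ^ 2 * 16 ^ (n + 1) := by
      calc (n + 1) ^ 2 * ((2 * (n + 1) + 1) * (Nat.centralBinom (n + 1)) ^ 2)
          = (2 * n + 3) * ((n + 1) * Nat.centralBinom (n + 1)) ^ 2 := by ring
        _ = (2 * n + 3) * (2 * (2 * n + 1) * Nat.centralBinom n) ^ 2 := by rw [h]
        _ = (4 * (2 * n + 3) * (2 * n + 1)) * ((2 * n + 1) * (Nat.centralBinom n) ^ 2) := by ring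
        _ ≤ (4 * (2 * n + 3) * (2 * n + 1)) * 16 ^ n := Nat.mul_le_mul_left _ ih
        _ ≤ (16 * (n + 1) ^ 2) * 16 ^ n := by
            refine Nat.mul_le_mul_right _ ?_
            nlinarith
        _ = (n + 1) ^ 2 * 16 ^ (n + 1) := by ring
    exact Nat.le_of_mul_le_mul_left h1 (by positivity)

theorem bm_sq (t : ℕ) : (t + 1) * (bm t) ^ 2 ≤ 4 ^ t := by
  rcases Nat.even_or_odd' t with ⟨n, rfl | rfl⟩
  · have h := cb n
    unfold bm
    rw [Nat.mul_div_cancel_left n (by norm_num), ← Nat.centralBinom_eq_two_mul_choose, pow_mul]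
    exact h
  · have h := cb (n + 1)
    have e : (2 * n + 1) / 2 = n := by omega
    have h2 : Nat.centralBinom (n + 1) = 2 * (2 * n + 1).choose n := by
      rw [Nat.centralBinom_eq_two_mul_choose, show 2 * (n + 1) = (2 * n + 1) + 1 by ring,
        Nat.choose_succ_succ, Nat.choose_symm_half n]
      ring
    unfold bm
    rw [e]
    rw [h2] at h
    have h3 : 4 * ((2 * n + 1 + 1) * (2 * n + 1).choose n ^ 2) ≤ 4 * 4 ^ (2 * n + 1) := by
      calc 4 * ((2 * n + 1 + 1) * (2 * n + 1).choose n ^ 2)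
          ≤ (2 * (n + 1) + 1) * (2 * (2 * n + 1).choose n) ^ 2 := by nlinarith
        _ ≤ 16 ^ (n + 1) := h
        _ = 4 * 4 ^ (2 * n + 1) := by
            rw [show (16 : ℕ) = 4 ^ 2 by norm_num, ← pow_mul]; ring
    exact Nat.le_of_mul_le_mul_left h3 (by norm_num)

/-- The bound for the number of words. -/
def bd (c N t : ℕ) : ℕ := ∑ j ∈ range (N + 1), N.choose j * c ^ (N - j) * bm (t + j)

theorem bd_zero (c t : ℕ) : bd c 0 t = bm t := by simp [bd]

theorem bd_succ (c N t : ℕ) : bd c (N + 1) t = bd c N (t + 1) + c * bd c N t := by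
  unfold bd
  rw [sum_range_succ' (fun j => (N + 1).choose j * c ^ (N + 1 - j) * bm (t + j))]
  have h1 : ∀ j ∈ range (N + 1), (N + 1).choose (j + 1) * c ^ (N + 1 - (j + 1)) *
      bm (t + (j + 1)) = N.choose j * c ^ (N - j) * bm (t + 1 + j) +
      N.choose (j + 1) * c ^ (N - j) * bm (t + (j + 1)) := by
    intro j _
    rw [Nat.choose_succ_succ, show N + 1 - (j + 1) = N - j by omega,
      show t + 1 + j = t + (j + 1) by omega]
    ring
  rw [sum_congr rfl h1, sum_add_distrib, add_assoc]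
  congr 1
  rw [mul_sum, sum_range_succ (fun j => N.choose (j + 1) * c ^ (N - j) * bm (t + (j + 1))),
    Nat.choose_succ_self, zero_mul, zero_mul, add_zero,
    sum_range_succ' (fun j => c * (N.choose j * c ^ (N - j) * bm (t + j)))]
  congr 1
  · refine sum_congr rfl fun j hj => ?_
    rw [mem_range] at hj
    rw [show N - j = (N - (j + 1)) + 1 by omega, pow_succ]
    ring
  · simp [pow_succ]; ring

theorem bd_le (c N : ℕ) : (bd c N 0 : ℝ) ^ 2 ≤ (c + 2) ^ (2 * N) * ((c + 2) / (2 * (N + 1))) := by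
  have h1 : (bd c N 0 : ℝ) ^ 2 ≤ (∑ j ∈ range (N + 1), (N.choose j : ℝ) * c ^ (N - j) * 2 ^ j) *
      ∑ j ∈ range (N + 1), (N.choose j : ℝ) * c ^ (N - j) * (2 ^ j / (j + 1)) := by
    have h2 : (bd c N 0 : ℝ) = ∑ j ∈ range (N + 1), (N.choose j : ℝ) * c ^ (N - j) * bm j := by
      unfold bd
      push_cast
      refine sum_congr rfl fun j _ => ?_
      rw [zero_add]
    rw [h2]
    refine sum_sq_le_sum_mul_sum_of_sq_le_mul _ (fun j _ => by positivity) (fun j _ => by positivity)
      (fun j _ => ?_)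
    have h3 : ((j : ℝ) + 1) * (bm j : ℝ) ^ 2 ≤ 4 ^ j := by exact_mod_cast bm_sq j
    have h4 : (0 : ℝ) < (j : ℝ) + 1 := by positivity
    have h5 : (bm j : ℝ) ^ 2 ≤ 2 ^ j * (2 ^ j / (j + 1)) := by
      rw [← mul_div_assoc, le_div_iff₀ h4, ← mul_pow]
      norm_num
      linarith
    calc ((N.choose j : ℝ) * c ^ (N - j) * bm j) ^ 2
        = ((N.choose j : ℝ) * c ^ (N - j)) ^ 2 * (bm j : ℝ) ^ 2 := by ring
      _ ≤ ((N.choose j : ℝ) * c ^ (N - j)) ^ 2 * (2 ^ j * (2 ^ j / (j + 1))) :=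
          mul_le_mul_of_nonneg_left h5 (by positivity)
      _ = _ := by ring
  have h6 : ∑ j ∈ range (N + 1), (N.choose j : ℝ) * c ^ (N - j) * 2 ^ j = (c + 2 : ℝ) ^ N := by
    rw [add_comm (c : ℝ) 2, add_pow]
    refine sum_congr rfl fun j _ => ?_
    ring
  have h7 : ∑ j ∈ range (N + 1), (N.choose j : ℝ) * c ^ (N - j) * (2 ^ j / (j + 1)) ≤
      (c + 2 : ℝ) ^ (N + 1) / (2 * (N + 1)) := by
    have hN : (0 : ℝ) < 2 * (N + 1) := by positivity
    rw [le_div_iff₀ hN, sum_mul, add_comm (c : ℝ) 2, add_pow,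
      sum_range_succ' (fun m => (2 : ℝ) ^ m * (c : ℝ) ^ (N + 1 - m) * ((N + 1).choose m : ℝ))]
    refine le_trans (le_of_eq ?_) (le_add_of_nonneg_right (by positivity))
    refine sum_congr rfl fun j _ => ?_
    have h8 : ((N + 1).choose (j + 1) : ℝ) * (j + 1) = (N + 1) * N.choose j := by
      exact_mod_cast (Nat.add_one_mul_choose_eq N j).symm
    have h9 : ((N + 1).choose (j + 1) : ℝ) = (N + 1) * N.choose j / (j + 1) := by
      rw [eq_div_iff (by positivity), h8]
    rw [h9, show N + 1 - (j + 1) = N - j by omega]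
    field_simp
    ring
  refine h1.trans ?_
  rw [h6]
  calc (c + 2 : ℝ) ^ N * _ ≤ (c + 2 : ℝ) ^ N * ((c + 2 : ℝ) ^ (N + 1) / (2 * (N + 1))) :=
        mul_le_mul_of_nonneg_left h7 (by positivity)
    _ = _ := by ring

/-! ### Sums of letters -/

section
variable {A : Type*} [AddCommGroup A] {X : Type*} [Fintype X] [DecidableEq X] [DecidableEq A]

/-- The number of the words, together with `t` further coins, with given sum. -/
def gg (h : X → A) (s : A) (N t : ℕ) (a : A) : ℕ :=
  ∑ w : Fin N → X, ∑ k ∈ range (t + 1), t.choose k * if ∑ i, h (w i) + k • s = a then 1 else 0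

theorem gg_zero (h : X → A) (s : A) (hs : ∀ n : ℕ, n ≠ 0 → n • s ≠ 0) (t : ℕ) (a : A) :
    gg h s 0 t a ≤ bm t := by
  unfold gg
  rw [Fintype.sum_eq_single (fun i => i.elim0) (fun w hw => absurd (Subsingleton.elim _ _) hw)]
  by_cases hex : ∃ k ∈ range (t + 1), k • s = a
  · obtain ⟨k, hk, hka⟩ := hex
    rw [sum_eq_single k]
    · refine le_trans (Nat.mul_le_mul_left _ (show _ ≤ 1 by split_ifs <;> omega)) ?_
      rw [mul_one]
      exact choose_le_bm t k
    · intro l _ hl
      rw [if_neg, mul_zero]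
      intro h1
      rw [Fin.sum_univ_zero, zero_add] at h1
      rcases Nat.lt_or_gt_of_ne hl with h2 | h2
      · have h3 : (k - l) • s = 0 := by
          rw [sub_nsmul s h2.le, hka, h1, add_neg_cancel]
        exact hs _ (by omega) h3
      · have h3 : (l - k) • s = 0 := by
          rw [sub_nsmul s h2.le, hka, h1, add_neg_cancel]
        exact hs _ (by omega) h3
    · exact fun h => absurd hk h
  · rw [sum_eq_zero]
    · exact Nat.zero_le _
    · intro k hk
      rw [if_neg, mul_zero]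
      intro h1
      rw [Fin.sum_univ_zero, zero_add] at h1
      exact hex ⟨k, hk, h1⟩

/-- Two letters of the alphabet are a coin. -/
theorem gg_succ (h : X → A) (x₀ x₁ : X) (hx : x₀ ≠ x₁) (h0 : h x₀ = 0) (N t : ℕ) (a : A) :
    gg h (h x₁) (N + 1) t a = gg h (h x₁) N (t + 1) a +
      ∑ x ∈ (univ.erase x₀).erase x₁, gg h (h x₁) N t (a - h x) := by
  have split : gg h (h x₁) (N + 1) t a = ∑ x : X, gg h (h x₁) N t (a - h x) := by
    unfold gg
    rw [← (Fin.consEquiv (fun _ : Fin (N + 1) => X)).sum_comp, Fintype.sum_prod_type]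
    refine sum_congr rfl fun x _ => sum_congr rfl fun w _ => sum_congr rfl fun k _ => ?_
    congr 1
    have : (∑ i, h ((Fin.consEquiv (fun _ : Fin (N + 1) => X)) (x, w) i) + k • h x₁ = a) ↔
        (∑ i, h (w i) + k • h x₁ = a - h x) := by
      rw [Fin.sum_univ_succ]
      simp only [Fin.consEquiv_apply, Fin.cons_zero, Fin.cons_succ]
      constructor
      · intro e; rw [← e]; abel
      · intro e; rw [add_assoc, e]; abel
    simp only [this]
  rw [split, ← sum_erase_add _ _ (mem_univ x₀), ← sum_erase_add _ _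
    (mem_erase.2 ⟨hx.symm, mem_univ x₁⟩), add_assoc, add_comm]
  congr 1
  rw [h0, sub_zero]
  unfold gg
  rw [← sum_add_distrib]
  refine sum_congr rfl fun w _ => ?_
  set f : ℕ → ℕ := fun k => if ∑ i, h (w i) + k • h x₁ = a then 1 else 0 with hf
  have e1 : ∀ k, (if ∑ i, h (w i) + k • h x₁ = a - h x₁ then 1 else 0) = f (k + 1) := by
    intro k
    rw [hf]
    have : (∑ i, h (w i) + k • h x₁ = a - h x₁) ↔ (∑ i, h (w i) + (k + 1) • h x₁ = a) := by
      rw [succ_nsmul]
      constructor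
      · intro e; rw [← add_assoc, e]; abel
      · intro e; rw [← e]; abel
    simp only [this]
  simp only [e1]
  show ∑ k ∈ range (t + 1), t.choose k * f (k + 1) + ∑ k ∈ range (t + 1), t.choose k * f k =
    ∑ k ∈ range (t + 1 + 1), (t + 1).choose k * f k
  rw [sum_range_succ' (fun k => (t + 1).choose k * f k)]
  simp only [Nat.choose_succ_succ, add_mul, sum_add_distrib]
  rw [add_assoc]
  congr 1
  rw [sum_range_succ (fun k => t.choose (k + 1) * f (k + 1)), Nat.choose_succ_self, zero_mul,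
    add_zero, sum_range_succ' (fun k => t.choose k * f k)]
  simp

theorem gg_le (h : X → A) (x₀ x₁ : X) (h0 : h x₀ = 0) (hs : ∀ n : ℕ, n ≠ 0 → n • h x₁ ≠ 0)
    (N t : ℕ) (a : A) : gg h (h x₁) N t a ≤ bd (Fintype.card X - 2) N t := by
  have hx : x₀ ≠ x₁ := by
    rintro rfl
    exact hs 1 one_ne_zero (by rw [h0, nsmul_zero])
  induction N generalizing t a with
  | zero => rw [bd_zero]; exact gg_zero h _ hs t a
  | succ N ih =>
    rw [gg_succ h x₀ x₁ hx h0, bd_succ]
    refine add_le_add (ih _ _) ?_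
    refine (sum_le_card_nsmul _ _ _ fun x _ => ih t (a - h x)).trans ?_
    rw [card_erase_of_mem (mem_erase.2 ⟨hx.symm, mem_univ x₁⟩), card_erase_of_mem (mem_univ x₀),
      card_univ, smul_eq_mul]
    exact le_of_eq (by rw [Nat.sub_sub])

/-- **Littlewood and Offord** for sums of independent letters. -/
theorem count_le (h : X → A) (x₀ x₁ : X) (h0 : h x₀ = 0) (hs : ∀ n : ℕ, n ≠ 0 → n • h x₁ ≠ 0)
    (N : ℕ) (a : A) : ((univ.filter fun w : Fin N → X => ∑ i, h (w i) = a).card : ℝ) ≤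
      (Fintype.card X : ℝ) ^ N * Real.sqrt ((Fintype.card X : ℝ) / (2 * (N + 1))) := by
  have hx : x₀ ≠ x₁ := by
    rintro rfl
    exact hs 1 one_ne_zero (by rw [h0, nsmul_zero])
  have h2 : 2 ≤ Fintype.card X := by
    have := card_le_univ ({x₀, x₁} : Finset X)
    rwa [card_pair hx] at this
  have e1 : (univ.filter fun w : Fin N → X => ∑ i, h (w i) = a).card = gg h (h x₁) N 0 a := by
    unfold gg
    rw [card_filter]
    refine sum_congr rfl fun w _ => ?_
    simp
  have h3 := gg_le h x₀ x₁ h0 hs N 0 a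
  have h4 := bd_le (Fintype.card X - 2) N
  have e2 : ((Fintype.card X - 2 : ℕ) : ℝ) + 2 = Fintype.card X := by
    rw [Nat.cast_sub h2]; push_cast; ring
  rw [e2] at h4
  rw [e1]
  have h5 : (gg h (h x₁) N 0 a : ℝ) ^ 2 ≤
      ((Fintype.card X : ℝ) ^ N * Real.sqrt ((Fintype.card X : ℝ) / (2 * (N + 1)))) ^ 2 := by
    rw [mul_pow, Real.sq_sqrt (by positivity), ← pow_mul, mul_comm N 2]
    refine le_trans ?_ h4
    have h6 : (gg h (h x₁) N 0 a : ℝ) ≤ bd (Fintype.card X - 2) N 0 := by exact_mod_cast h3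
    exact pow_le_pow_left₀ (Nat.cast_nonneg _) h6 2
  exact le_of_sq_le_sq h5 (by positivity)

end

end Pool.Agent.Y466.RW
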