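import Pool.Agent.Y466.FT.Defs

/-!
# Random words in pure braids
-/

set_option autoImplicit false

namespace Pool.Agent.Y466.RW

open Pool.Agent.H835R2.Knot Pool.Agent.Y466.FT

/-- Each letter `s` of an alphabet `L` stands for `k` braid words `x s 0, …, x s (k - 1)`, one for
each of the `k` places of the diagram `u₀ u₁ ⋯ u_k`, and `none` stands for the empty letter.  For a
word `w = w₁ ⋯ w_N` in the alphabet `L ∪ {∅}`, this is the diagram with the braid word
`x w₁ i ⋯ x w_N i` inserted at the place `i`, for all `i`. -/
def rand {L : Type} {k : ℕ} (u₀ : Word) (u : Fin k → Word) (x : L → Fin k → Braid) {N : ℕ}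
    (w : Fin N → Option L) : Word :=
  u₀ ++ (List.ofFn fun i => draw (List.ofFn fun j => (w j).elim [] fun s => x s i).flatten ++
    u i).flatten

end Pool.Agent.Y466.RW
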